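import Pool.Agent.MP_1246c0_nt.H12.SpecA
import Pool.Agent.MP_db5b97_nt.H85.NT

/-! Passage from indices of groups of divisors to class numbers. -/

namespace Pool.Agent.MP_1246c0_nt.H12

open NumberField IsDedekindDomain Pool.Agent.MP_db5b97_nt.H85
open Pool.Agent.MP_1246c0_nt.H55 (kD)

namespace BR

section Cl

variable {F : Type} [Field F] [NumberField F]

/-- the class of a nonzero ideal -/
noncomputable def ci (I : Ideal (𝓞 F)) (h : I ≠ ⊥) : Additive (ClassGroup (𝓞 F)) :=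
  Additive.ofMul (ClassGroup.mk0 ⟨I, mem_nonZeroDivisors_of_ne_zero h⟩)

variable (F) in
/-- the class of a divisor -/
noncomputable def cl (l : ℕ) : Dv F l →+ Additive (ClassGroup (𝓞 F)) :=
  Finsupp.liftAddHom fun w => zmultiplesHom _ (ci w.1.asIdeal w.1.ne_bot)

theorem cl_single (l : ℕ) (w : Pr F l) :
    cl F l (Finsupp.single w 1) = ci w.1.asIdeal w.1.ne_bot := by
  simp [cl]

theorem cl_dI {l : ℕ} (H : ∀ v : Pl F l, ci v.1.asIdeal v.1.ne_bot = 0) (I : Ideal (𝓞 F)) :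
    ∀ h : I ≠ ⊥, cl F l (dI l I) = ci I h := by
  induction I using UniqueFactorizationMonoid.induction_on_prime with
  | h₁ => exact fun h => absurd rfl h
  | h₂ I hI =>
    intro h
    obtain rfl := Ideal.isUnit_iff.1 hI
    rw [dI_top, map_zero]
    exact (congrArg Additive.ofMul ((ClassGroup.mk0_eq_one_iff _).2 top_isPrincipal)).symm
  | h₃ J p hJ hp ih =>
    intro h
    let w : Sp F := ⟨p, Ideal.isPrime_of_prime hp, hp.ne_zero⟩
    have e : ci (p * J) h = ci w.asIdeal w.ne_bot + ci J hJ := by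
      rw [ci, ci, ci, ← ofMul_mul, ← map_mul]
      rfl
    rw [dI_mul hp.ne_zero hJ, map_add, ih hJ, e]
    congr 1
    by_cases hw : (l : 𝓞 F) ∈ w.asIdeal
    · rw [H ⟨w, hw⟩]
      exact (congrArg _ (dI_pl ⟨w, hw⟩)).trans (map_zero _)
    · exact (congrArg _ (dI_pr ⟨w, hw⟩)).trans (cl_single l ⟨w, hw⟩)

theorem cl_dv {l : ℕ} (H : ∀ v : Pl F l, ci v.1.asIdeal v.1.ne_bot = 0) (x : Un F) :
    cl F l (dv F l x) = 0 := by
  have key : ∀ a ha, cl F l (dv F l (mkI a ha)) = 0 := fun a ha => by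
    rw [dv_mkI, cl_dI H _ (by simpa using ha)]
    exact congrArg Additive.ofMul ((ClassGroup.mk0_eq_one_iff _).2 ⟨a, rfl⟩)
  obtain ⟨a, ha, b, hb, rfl⟩ := exists_mkI x
  rw [map_sub, map_sub, key, key, sub_zero]

theorem cl_surj {l : ℕ} (H : ∀ v : Pl F l, ci v.1.asIdeal v.1.ne_bot = 0) :
    Function.Surjective (cl F l) := fun c => by
  obtain ⟨⟨I, hI⟩, e⟩ := ClassGroup.mk0_surjective (Additive.toMul c)
  exact ⟨dI l I, (cl_dI H I (nonZeroDivisors.ne_zero hI)).trans (congrArg Additive.ofMul e)⟩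

theorem ci_two {w : Sp F} {x : Un F} (hw : ∀ v : Sp F, ((2 : ℕ) : 𝓞 F) ∈ v.asIdeal ↔ v = w)
    (h1 : ord w x = 1) (h2 : dv F 2 x = 0) (v : Pl F 2) : ci v.1.asIdeal v.1.ne_bot = 0 := by
  classical
  have h : ∀ v : Sp F, ((1 : ℕ) : 𝓞 F) ∉ v.asIdeal := fun v hv =>
    v.isPrime.ne_top ((Ideal.eq_top_iff_one _).2 (by simpa using hv))
  obtain ⟨v, hv⟩ := v
  obtain rfl := (hw _).1 hv
  let v' : Pr F 1 := ⟨v, h _⟩
  have e : dv F 1 x = Finsupp.single v' 1 := by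
    ext u
    rw [dv_apply]
    by_cases hu : u = v'
    · rw [hu, Finsupp.single_eq_same]
      exact h1
    · rw [Finsupp.single_eq_of_ne hu]
      have hu' : ((2 : ℕ) : 𝓞 F) ∉ u.1.asIdeal := fun h' => hu (Subtype.ext ((hw _).1 h'))
      exact (dv_apply F 2 x ⟨u.1, hu'⟩).symm.trans (by rw [h2, Finsupp.zero_apply])
  exact (cl_single 1 v').symm.trans (e ▸ cl_dv (fun u => absurd u.2 (h _)) x)

theorem index_ne : (Od (⊤ : AddSubgroup (Un F))).index ≠ 0 :=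
  ne_zero_of_dvd_ne_zero (Ru_index_ne (F := F) (l := 2)) (AddSubgroup.index_dvd_of_le <| by
    rintro _ ⟨x, -, rfl⟩
    exact ⟨1, odd_one, x, trivial, one_smul _ _⟩)

theorem val_le (H : ∀ v : Pl F 2, ci v.1.asIdeal v.1.ne_bot = 0) :
    padicValNat 2 (Nat.card (ClassGroup (𝓞 F))) ≤ (Od (⊤ : AddSubgroup (Un F))).index := by
  let T : AddSubgroup (Additive (ClassGroup (𝓞 F))) := (Od ⊤).map (cl F 2)
  have hT : ¬2 ∣ Nat.card T := fun h => by
    obtain ⟨c, h2⟩ := exists_prime_addOrderOf_dvd_card' 2 h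
    rw [← AddSubgroup.addOrderOf_coe] at h2
    obtain ⟨D, ⟨k, hk, x, -, e⟩, e'⟩ := c.2
    refine hk.not_two_dvd_nat ?_
    rw [← h2, addOrderOf_dvd_iff_nsmul_eq_zero, ← e', ← map_nsmul, e, cl_dv H]
  have h1 : 2 ^ padicValNat 2 (Nat.card (ClassGroup (𝓞 F))) ∣ T.index := by
    refine (Nat.Coprime.pow_left _ ((Nat.Prime.coprime_iff_not_dvd Nat.prime_two).2
      hT)).dvd_of_dvd_mul_left ?_
    rw [AddSubgroup.card_mul_index]
    exact pow_padicValNat_dvd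
  exact Nat.lt_two_pow_self.le.trans (Nat.le_of_dvd (Nat.pos_of_ne_zero index_ne)
    (h1.trans (AddSubgroup.index_map_dvd _ (cl_surj H))))

end Cl

theorem map_tw {A B : Type} [Ring A] [Ring B] (f : A →+* B) (n : ℕ) (x : A) :
    f (tw^[n] x) = tw^[n] (f x) :=
  Function.Semiconj.iterate_right (f := f) (fun y => by simp [tw, map_ofNat]) n x

theorem tw_add {ξ : ℂ} (h : ξ ≠ 0) (n : ℕ) : tw^[n] (ξ + ξ⁻¹) = ξ ^ 2 ^ n + (ξ ^ 2 ^ n)⁻¹ := by
  induction n with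
  | zero => simp
  | succ n ih =>
    have := pow_ne_zero (2 ^ n) h
    rw [Function.iterate_succ_apply', ih, tw, pow_succ 2 n, pow_mul]
    field_simp
    ring

open IntermediateField in
theorem mem_real {n : ℕ} {ζ : ℂ} (hζ : IsPrimitiveRoot ζ (2 ^ (n + 2)))
    {K : IntermediateField ℚ ℂ} (hK : K ≤ adjoin ℚ {ζ}) (hr : Module.finrank ℚ K = 2 ^ n)
    (him : ∀ x ∈ K, x.im = 0) {t : ℂ} (ht : tw^[n] t = 0) : t ∈ K := by
  have hint : IsIntegral ℚ ζ := (hζ.isIntegral (by positivity)).tower_top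
  have := adjoin.finiteDimensional hint
  have hz : Module.finrank ℚ (adjoin ℚ {ζ}) = 2 ^ (n + 1) := by
    rw [adjoin.finrank hint, ← Polynomial.cyclotomic_eq_minpoly_rat hζ (by positivity),
      Polynomial.natDegree_cyclotomic, Nat.totient_prime_pow_succ Nat.prime_two]
    simp
  let R : IntermediateField ℚ ℂ := Complex.ofRealHom.toRatAlgHom.fieldRange
  have hR : ∀ x : ℂ, x ∈ R ↔ x.im = 0 := fun x =>
    ⟨fun ⟨r, e⟩ => e ▸ Complex.ofReal_im r, fun h => ⟨x.re, Complex.ext rfl h.symm⟩⟩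
  have hle : adjoin ℚ {ζ} ⊓ R ≤ adjoin ℚ {ζ} := inf_le_left
  have : FiniteDimensional ℚ (adjoin ℚ {ζ} ⊓ R : IntermediateField ℚ ℂ) :=
    FiniteDimensional.of_injective (inclusion hle).toLinearMap (inclusion hle).injective
  have hn : ∀ ξ : ℂ, ξ ^ 2 ^ (n + 2) = 1 → ξ⁻¹ = starRingEnd ℂ ξ := fun ξ h =>
    Complex.inv_eq_conj (Complex.norm_eq_one_of_pow_eq_one h (by positivity))
  have hKe : K = adjoin ℚ {ζ} ⊓ R := by
    refine eq_of_le_of_finrank_le (le_inf hK fun x hx => (hR x).2 (him x hx)) ?_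
    obtain ⟨i, hi, e⟩ := (Nat.dvd_prime_pow Nat.prime_two).1 (hz ▸ finrank_dvd_of_le_right hle)
    rw [e, hr]
    refine Nat.pow_le_pow_right two_pos (Nat.le_of_lt_succ (hi.lt_of_ne ?_))
    rintro rfl
    have h1 : ζ ∈ adjoin ℚ {ζ} ⊓ R := by
      rw [eq_of_le_of_finrank_eq hle (e.trans hz.symm)]
      exact mem_adjoin_simple_self _ _
    have h2 : ζ ^ 2 = 1 := by
      rw [sq]
      nth_rw 1 [← Complex.conj_eq_iff_im.2 ((hR ζ).1 h1.2), ← hn ζ hζ.pow_eq_one]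
      exact inv_mul_cancel₀ (hζ.ne_zero (by positivity))
    have h3 := Nat.le_of_dvd two_pos (hζ.dvd_of_pow_eq_one 2 h2)
    have := Nat.one_le_two_pow (n := n)
    rw [pow_add] at h3
    omega
  obtain ⟨r, hr⟩ := IsAlgClosed.exists_pow_nat_eq (t ^ 2 - 4) two_pos
  have h1 : (t + r) / 2 * ((t - r) / 2) = 1 := by linear_combination (-1 / 4) * hr
  have h0 := left_ne_zero_of_mul_eq_one h1
  have h2 : t = (t + r) / 2 + ((t + r) / 2)⁻¹ := by
    rw [← eq_inv_of_mul_eq_one_right h1]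
    ring
  generalize (t + r) / 2 = ξ at h0 h2
  subst h2
  have h3 : ξ ^ 2 ^ (n + 2) = 1 := by
    have := pow_ne_zero (2 ^ n) h0
    rw [tw_add h0] at ht
    rw [pow_add, pow_mul]
    generalize ξ ^ 2 ^ n = u at *
    field_simp at ht
    linear_combination (u ^ 2 - 1) * ht
  rw [hKe]
  refine ⟨?_, (hR _).2 (by simp [hn ξ h3])⟩
  obtain ⟨i, -, rfl⟩ := hζ.eq_pow_of_pow_eq_one h3
  have := pow_mem (mem_adjoin_simple_self ℚ ζ) i
  exact add_mem this (inv_mem this)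

open IntermediateField Polynomial in
theorem model {L : Type} [Field L] [NumberField L] {d n : ℕ} {s θ : L} {σ γ : L ≃ₐ[ℚ] L}
    (h : Tw L d n s θ σ γ) {ζ : ℂ} (hζ : IsPrimitiveRoot ζ (2 ^ (n + 2)))
    {K : IntermediateField ℚ ℂ} (hK : K ≤ adjoin ℚ {ζ}) (hr : Module.finrank ℚ K = 2 ^ n)
    (him : ∀ x ∈ K, x.im = 0) : Nonempty (L ≃+* ↥(kD d ⊔ K)) := by
  let φ : L →ₐ[ℚ] ℂ := IsAlgClosed.lift
  have hs : ((Real.sqrt d : ℝ) : ℂ) ^ 2 = d := by
    rw [← Complex.ofReal_pow, Real.sq_sqrt (Nat.cast_nonneg d), Complex.ofReal_natCast]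
  have hp : (X ^ 2 - C (d : ℚ)).Monic := monic_X_pow_sub_C _ two_ne_zero
  have ha : aeval ((Real.sqrt d : ℝ) : ℂ) (X ^ 2 - C (d : ℚ)) = 0 := by simp [hs]
  have hint : IsIntegral ℚ ((Real.sqrt d : ℝ) : ℂ) := ⟨_, hp, ha⟩
  have : FiniteDimensional ℚ (kD d) := adjoin.finiteDimensional hint
  have : FiniteDimensional ℚ K := Module.finite_of_finrank_pos (by rw [hr]; positivity)
  have h2 : Module.finrank ℚ (kD d) ≤ 2 := by
    rw [kD, adjoin.finrank hint]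
    exact (natDegree_le_natDegree (minpoly.min ℚ _ hp ha)).trans natDegree_X_pow_sub_C.le
  have e : φ.fieldRange = kD d ⊔ K := by
    refine eq_of_le_of_finrank_le ?_ ?_
    · rw [AlgHom.fieldRange_eq_map, ← h.gen, adjoin_map, adjoin_le_iff]
      rintro _ ⟨x, rfl | rfl, rfl⟩
      · have h3 : φ x ^ 2 = ((Real.sqrt d : ℝ) : ℂ) ^ 2 := by
          rw [hs, ← map_pow, h.sq, map_natCast]
        have h4 := (le_sup_left : kD d ≤ kD d ⊔ K) (mem_adjoin_simple_self ℚ _)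
        rcases sq_eq_sq_iff_eq_or_eq_neg.1 h3 with e | e
        · exact e ▸ h4
        · exact e ▸ neg_mem h4
      · refine (le_sup_right : K ≤ kD d ⊔ K) (mem_real hζ hK hr him ?_)
        exact (map_tw φ.toRingHom n x).symm.trans (by rw [h.root, map_zero])
    · rw [← φ.equivFieldRange.toLinearEquiv.finrank_eq, h.rk, pow_succ', ← hr]
      exact (finrank_sup_le _ _).trans (Nat.mul_le_mul_right _ h2)
  exact ⟨(φ.equivFieldRange.trans (equivOfEq e)).toRingEquiv⟩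

end BR

open BR in
theorem rowBR : OfBR := fun _ TW TP => by
  have key : ∀ (L L' : Type) [Field L] [NumberField L] [Field L'] [NumberField L'] (d M m : ℕ)
      (s θ : L) (σ γ : L ≃ₐ[ℚ] L) (s' θ' : L') (σ' γ' : L' ≃ₐ[ℚ] L'), Tw L d M s θ σ γ →
      Tw L' d m s' θ' σ' γ' → m ≤ M →
      (Oc γ m).relIndex (Iv γ m) = (Od (⊤ : AddSubgroup (Un L'))).index := by
    intro L L' _ _ _ _ d M m s θ σ γ s' θ' σ' γ' h h' hm
    obtain ⟨j, -, -, h1, h2, h3⟩ := TW.sub L L' d M m s θ σ γ s' θ' σ' γ' h h' hm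
    obtain ⟨κ, -, hr, -, -, -, -, hκ⟩ := TP.pull L L' d M m s θ σ γ s' θ' σ' γ' j h h' hm h1 h2 h3
    rw [← hr, ← AddSubgroup.index_comap]
    congr 1
    exact AddSubgroup.ext hκ
  refine ⟨fun d m => ?_, fun d b h1 h2 hb => ⟨b, fun n _ ζ hζ K hK hr him => ?_⟩⟩
  · by_cases hd : Squarefree d ∧ d % 8 = 5
    · obtain ⟨L', _, _, s', θ', σ', γ', h'⟩ := TW.ex d m hd.1 hd.2
      refine ⟨(Od (⊤ : AddSubgroup (Un L'))).index, fun L _ _ M s θ σ γ h hm => ?_⟩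
      rw [key L L' d M m s θ σ γ s' θ' σ' γ' h h' hm]
      exact ⟨index_ne, le_rfl⟩
    · exact ⟨0, fun L _ _ M s θ σ γ h _ => absurd ⟨h.sqf, h.md⟩ hd⟩
  · obtain ⟨L, _, _, s, θ, σ, γ, h⟩ := TW.ex d n h1 h2
    obtain ⟨e⟩ := model h hζ hK hr him
    obtain ⟨h0, w, hw, hx⟩ := TP.two L d n s θ σ γ h
    obtain ⟨h3, h4⟩ := hx (Un.mk _ h0) rfl
    rw [← Nat.card_congr (ClassGroup.mulEquiv (RingOfIntegers.mapRingEquiv e)).toEquiv]
    exact (val_le (ci_two hw h3 h4)).trans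
      (key L L d n n s θ σ γ s θ σ γ h h le_rfl ▸ hb L n s θ σ γ h)

end Pool.Agent.MP_1246c0_nt.H12
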