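import Pool.Agent.MP_1246c0_nt.H12.SpecR

/-! The probability of a system for a robustly spanning vector. -/

namespace Pool.Agent.MP_1246c0_nt.H12

open Finset Matrix

namespace ROB

variable {Λ ι G : Type} [CommRing Λ] [AddCommGroup G] [Module Λ G]

lemma f2 (a : F2) : a + a = 0 := CharTwo.add_self_eq_zero a

lemma ext {M : Type} [AddCommGroup M] {x : ι → G} {J : Finset ι} (hJ : sp Λ x J = ⊤)
    (f g : G →+ M) (h : ∀ l ∈ J, ∀ k : Λ, f (k • x l) = g (k • x l)) : f = g := by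
  have key : ∀ v ∈ sp Λ x J, ∀ k : Λ, f (k • v) = g (k • v) := by
    intro v hv
    induction hv using Submodule.span_induction with
    | mem v hv => obtain ⟨l, hl, rfl⟩ := hv; exact h l hl
    | zero => simp
    | add u v _ _ a b => intro k; rw [smul_add, map_add, map_add, a, b]
    | smul c u _ a => intro k; rw [smul_smul, a]
  ext v
  simpa using key v (hJ ▸ Submodule.mem_top) 1

lemma exb {st : Λ →+* Λ} (hst : ∀ h, st (st h) = h) {x : ι → G} {B J J' : Finset ι}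
    (lam : ι → G →+ F2)
    (hl : ∀ l ∈ J, ∀ l' ∈ B, l' ∉ J → ∀ k : Λ, lam l (k • x l') = lam l' (st k • x l))
    (hJ : sp Λ x J = ⊤) (hJ' : sp Λ x J' = ⊤) (hB : ∀ l ∈ J', l ∈ B ∧ l ∉ J) :
    ∃ β : G →+ G →+ F2, ∀ l' ∈ B, l' ∉ J → ∀ (v : G) (k : Λ), β v (k • x l') = lam l' (st k • v) := by
  have key : ∀ v ∈ sp Λ x J, ∀ c : Λ, ∃ b : G →+ F2,
      ∀ l' ∈ B, l' ∉ J → ∀ k : Λ, b (k • x l') = lam l' (st k • c • v) := by
    intro v hv
    induction hv using Submodule.span_induction with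
    | mem v hv =>
      obtain ⟨l, hl', rfl⟩ := hv
      intro c
      refine ⟨(lam l).comp (DistribSMul.toAddMonoidHom G (st c)), fun l' h1 h2 k => ?_⟩
      change lam l (st c • k • x l') = _
      rw [smul_smul, hl l hl' l' h1 h2, map_mul, hst, smul_smul, mul_comm]
    | zero => exact fun c => ⟨0, by simp⟩
    | add u v _ _ a b =>
      intro c
      obtain ⟨a, ha⟩ := a c
      obtain ⟨b, hb⟩ := b c
      exact ⟨a + b, fun l' h1 h2 k => by
        rw [AddMonoidHom.add_apply, ha l' h1 h2, hb l' h1 h2, smul_add, smul_add, map_add]⟩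
    | smul c' u _ a => intro c; rw [smul_smul]; exact a _
  choose b hb using fun v => key v (hJ ▸ Submodule.mem_top) 1
  simp only [one_smul] at hb
  refine ⟨AddMonoidHom.mk' b fun u v => ext hJ' _ _ fun l h k => ?_, fun l' h1 h2 v k => hb v l' h1 h2 k⟩
  obtain ⟨h1, h2⟩ := hB l h
  rw [AddMonoidHom.add_apply, hb _ l h1 h2, hb _ l h1 h2, hb _ l h1 h2, smul_add, map_add]

lemma symm {st : Λ →+* Λ} {β : G →+ G →+ F2} (h : β ∈ Alt G st) (v w : G) : β v w = β w v := by
  have h1 := h.2 (v + w)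
  simp only [map_add, AddMonoidHom.add_apply, h.2 v, h.2 w, zero_add, add_zero] at h1
  rw [← CharTwo.add_eq_zero, ← h1, add_comm]

lemma surj {st : Λ →+* Λ} {au : Λ →+* F2} {τ : Λ} {N : ℕ} (hL : LR st au τ N) {x : ι → G}
    {B F J1 J2 J3 : Finset ι} (lam : ι → G →+ F2)
    (hl : ∀ l ∈ F, ∀ l' ∈ B, l' ≠ l → ∀ k : Λ, lam l (k • x l') = lam l' (st k • x l))
    (hd : ∀ l ∈ F, lam l (x l) = 0) (hF : F ⊆ B) (f1 : J1 ⊆ F) (f2' : J2 ⊆ F) (f3 : J3 ⊆ F)
    (d12 : Disjoint J1 J2) (d13 : Disjoint J1 J3) (d23 : Disjoint J2 J3) (s1 : sp Λ x J1 = ⊤)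
    (s2 : sp Λ x J2 = ⊤) (s3 : sp Λ x J3 = ⊤) : ∃ β ∈ Alt G st, ∀ l ∈ B, β (x l) = lam l := by
  have n31 : ∀ l ∈ J3, l ∈ B ∧ l ∉ J1 := fun l h => ⟨hF (f3 h), disjoint_right.1 d13 h⟩
  have n32 : ∀ l ∈ J3, l ∈ B ∧ l ∉ J2 := fun l h => ⟨hF (f3 h), disjoint_right.1 d23 h⟩
  obtain ⟨β, hβ⟩ := exb hL.inv lam
    (fun l h l' h1 h2 => hl l (f1 h) l' h1 fun e => h2 (e ▸ h)) s1 s3 n31
  obtain ⟨β', hβ'⟩ := exb hL.inv lam
    (fun l h l' h1 h2 => hl l (f2' h) l' h1 fun e => h2 (e ▸ h)) s2 s3 n32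
  have e : ∀ v, β v = β' v := fun v => ext s3 _ _ fun l h k => by
    rw [hβ l (n31 l h).1 (n31 l h).2, hβ' l (n32 l h).1 (n32 l h).2]
  have hB : ∀ l ∈ B, ∀ (v : G) (k : Λ), β v (k • x l) = lam l (st k • v) := by
    intro l h v k
    by_cases h1 : l ∈ J1
    · rw [e, hβ' l h (disjoint_left.1 d12 h1)]
    · exact hβ l h h1 v k
  have hs : ∀ v w, β v w = β w v := by
    have : β = β.flip := ext s1 _ _ fun l h k => ext s2 _ _ fun l' h' k' => by
      rw [AddMonoidHom.flip_apply, hB l' (hF (f2' h')), hB l (hF (f1 h)), smul_smul, smul_smul,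
        hl l (f1 h) l' (hF (f2' h')) fun e => disjoint_left.1 d12 h (e ▸ h'), map_mul, hL.inv,
        mul_comm]
    exact fun v w => DFunLike.congr_fun (DFunLike.congr_fun this v) w
  have hi : ∀ (h : Λ) v w, β (h • v) w = β v (st h • w) := by
    intro h v w
    have : β (h • v) = (β v).comp (DistribSMul.toAddMonoidHom G (st h)) :=
      ext s1 _ _ fun l hl' k => by
        change _ = β v (st h • k • x l)
        rw [smul_smul, hB l (hF (f1 hl')), hB l (hF (f1 hl')), map_mul, hL.inv, smul_smul, mul_comm]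
    exact DFunLike.congr_fun this w
  have hx : ∀ l ∈ B, β (x l) = lam l := fun l h => by
    ext v
    simpa [hs v] using hB l h v 1
  refine ⟨β, ⟨hi, fun v => ?_⟩, hx⟩
  have : AddMonoidHom.mk' (fun v => β v v) (fun u v => by
      simp only [map_add, AddMonoidHom.add_apply]
      rw [hs v u]
      linear_combination f2 (β u v)) = 0 := ext s1 _ _ fun l h k => by
    obtain ⟨c, hc⟩ := hL.nrm k
    change β (k • x l) (k • x l) = 0
    rw [hi, smul_smul, hc, add_smul, add_smul, map_add, map_add, ← hi, hs (c • x l), add_assoc, f2,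
      Nat.cast_smul_eq_nsmul, map_nsmul, hx l (hF (f1 h)), hd l (f1 h), smul_zero, add_zero]
  exact DFunLike.congr_fun this v

variable [Fintype ι] [DecidableEq ι]

/-- the rows in `B` of the matrix applied to `x` -/
def ph (B : Finset ι) (x : ι → G) : Matrix ι ι Λ →+ (B → G) :=
  AddMonoidHom.mk' (fun H l => ap H x l) fun H H' => by
    funext l
    simp [ap, add_smul, sum_add_distrib]

/-- the character attached to a form -/
def ps (B : Finset ι) (x : ι → G) (β : G →+ G →+ F2) : (B → G) →+ F2 :=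
  AddMonoidHom.mk' (fun w => ∑ l : B, β (x l) (w l)) fun w w' => by simp [sum_add_distrib]

omit [Fintype ι] in
lemma ps_single (B : Finset ι) (x : ι → G) (β : G →+ G →+ F2) (l : B) (w : G) :
    ps B x β (Pi.single l w) = β (x l) w := by
  change ∑ l' : B, β (x l') ((Pi.single l w : B → G) l') = _
  rw [sum_eq_single l (fun b _ hb => by rw [Pi.single_eq_of_ne hb, map_zero]) (by simp),
    Pi.single_eq_same]

omit [DecidableEq ι] in
lemma ps_ann {st : Λ →+* Λ} {B F : Finset ι} (x : ι → G)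
    {β : G →+ G →+ F2} (h : β ∈ Alt G st) {H : Matrix ι ι Λ} (hH : H ∈ Hs st B F) :
    ps B x β (ph B x H) = 0 := by
  change ∑ l : B, β (x l) (ap H x l) = 0
  rw [sum_coe_sort B fun l => β (x l) (ap H x l), sum_subset (subset_univ B) fun l _ hl => by
    rw [ap, sum_eq_zero fun l' _ => by rw [hH.2.2 l l' fun e => hl e.1, zero_smul], map_zero]]
  simp only [ap, map_sum]
  rw [← sum_product']
  refine sum_involution (fun p _ => p.swap) (fun p _ => ?_) (fun p _ hp e => hp ?_)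
    (fun p _ => by simp) fun p _ => rfl
  · rw [Prod.fst_swap, Prod.snd_swap, hH.1 p.1 p.2, ← h.1, symm h (x p.1), f2]
  · have e' : p.2 = p.1 := congrArg Prod.fst e
    obtain ⟨n, hn⟩ := hH.2.1 p.1
    rw [e', hn, Int.cast_smul_eq_zsmul, map_zsmul, h.2, smul_zero]

lemma ph_single (B : Finset ι) (x : ι → G) (l : B) (l' : ι) (k : Λ) :
    ph B x (Matrix.single l.1 l' k) = Pi.single l (k • x l') := by
  funext i
  change ∑ j, Matrix.single l.1 l' k i.1 j • x j = _
  by_cases e : i = l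
  · subst e
    rw [sum_eq_single l' (fun b _ hb => by
      rw [Matrix.single_apply_of_col_ne _ _ hb.symm, zero_smul]) (by simp)]
    simp
  · rw [Pi.single_eq_of_ne e]
    exact sum_eq_zero fun j _ => by
      rw [Matrix.single_apply_of_row_ne (fun h => e (Subtype.ext h).symm), zero_smul]

lemma mem_off {st : Λ →+* Λ} (hst : ∀ h, st (st h) = h) {B F : Finset ι} {l l' : ι} (h1 : l ∈ B)
    (h2 : l ∈ F) (h3 : l' ∈ B) (h4 : l' ≠ l) (k : Λ) :
    Matrix.single l l' k + Matrix.single l' l (st k) ∈ Hs st B F := by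
  refine ⟨fun i j => ?_, fun i => ⟨0, ?_⟩, fun i j h => ?_⟩
  · simp only [Matrix.add_apply, Matrix.single_apply, map_add, apply_ite st, hst, map_zero]
    rw [add_comm]
    simp only [and_comm]
  · simp only [Matrix.add_apply, Matrix.single_apply]
    rw [if_neg fun e => h4 (e.2.trans e.1.symm), if_neg fun e => h4 (e.1.trans e.2.symm)]
    simp
  · simp only [Matrix.add_apply, Matrix.single_apply]
    rw [if_neg (by rintro ⟨rfl, rfl⟩; exact h ⟨h1, h3, Or.inl h2⟩),
      if_neg (by rintro ⟨rfl, rfl⟩; exact h ⟨h3, h1, Or.inr h2⟩), add_zero]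

lemma mem_diag {st : Λ →+* Λ} {B F : Finset ι} {l : ι} (h1 : l ∈ B) (h2 : l ∈ F) :
    Matrix.single l l (1 : Λ) ∈ Hs st B F := by
  refine ⟨fun i j => ?_, fun i => ?_, fun i j h => ?_⟩
  · simp only [Matrix.single_apply, apply_ite st, map_one, map_zero, and_comm]
  · by_cases e : l = i
    · exact ⟨1, by simp [e]⟩
    · exact ⟨0, by simp [e]⟩
  · rw [Matrix.single_apply, if_neg (by rintro ⟨rfl, rfl⟩; exact h ⟨h1, h1, Or.inl h2⟩)]

end ROB

open ROB in
theorem rowROB : OfROB := by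
  intro hA hQ Λ ι G _ _ _ _ _ _ _ st au τ N B F J1 J2 J3 x v hL hF f1 f2' f3 d12 d13 d23 s1 s2 s3
  have h2 : ∀ w : B → G, w + w = 0 := fun w => by
    rw [← two_smul Λ w, hL.two, zero_smul]
  obtain ⟨hc, hm⟩ := (hQ.dual (B → G) h2).2.2 ((Hs st B F).map (ph B x))
  have hsur : ∀ μ : (B → G) →+ F2, (∀ w ∈ (Hs st B F).map (ph B x), μ w = 0) →
      ∃ β ∈ Alt G st, ps B x β = μ := by
    intro μ hμ
    let lam : ι → G →+ F2 := fun l =>
      if h : l ∈ B then μ.comp (AddMonoidHom.single (fun _ : B => G) ⟨l, h⟩) else 0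
    have hlam : ∀ (l : B) w, lam l w = μ (Pi.single l w) := fun l w => by
      simp only [lam, dif_pos l.2]; rfl
    obtain ⟨β, hβ, hx⟩ := surj hL (x := x) lam (fun l h l' h' e k => by
      have := hμ _ ⟨_, mem_off hL.inv (hF h) h h' e k, rfl⟩
      rw [map_add, ph_single B x ⟨l, hF h⟩, ph_single B x ⟨l', h'⟩, map_add,
        CharTwo.add_eq_zero] at this
      exact (hlam ⟨l, hF h⟩ _).trans (this.trans (hlam ⟨l', h'⟩ _).symm))
      (fun l h => by
        have := hμ _ ⟨_, mem_diag (hF h) h, rfl⟩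
        rw [ph_single B x ⟨l, hF h⟩, one_smul] at this
        exact (hlam ⟨l, hF h⟩ _).trans this) hF f1 f2' f3 d12 d13 d23 s1 s2 s3
    refine ⟨β, hβ, AddMonoidHom.functions_ext _ _ _ fun l w => ?_⟩
    rw [ps_single, hx l l.2, hlam]
  have hcard : Nat.card (Alt G st) =
      Nat.card {μ : (B → G) →+ F2 // ∀ w ∈ (Hs st B F).map (ph B x), μ w = 0} := by
    refine Nat.card_eq_of_bijective (fun β => ⟨ps B x β.1, ?_⟩) ⟨fun β β' e => ?_, fun μ => ?_⟩
    · rintro _ ⟨H, hH, rfl⟩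
      exact ps_ann x β.2 hH
    · refine Subtype.ext (ext s1 _ _ fun l h k => ?_)
      ext w
      rw [β.2.1, β'.2.1, ← ps_single B x β.1 ⟨l, hF (f1 h)⟩, ← ps_single B x β'.1 ⟨l, hF (f1 h)⟩]
      exact DFunLike.congr_fun (congrArg Subtype.val e) _
    · obtain ⟨β, h1, h2⟩ := hsur μ.1 μ.2
      exact ⟨⟨β, h1⟩, Subtype.ext h2⟩
  have e1 : (fun H : Matrix ι ι Λ => ind (∀ l ∈ B, ap H x l = v l)) =
      fun H => ind (ph B x H = fun l : B => v l) := by
    funext H
    congr 1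
    exact propext ⟨fun h => funext fun l => h l l.2, fun h l hl => congrFun h ⟨l, hl⟩⟩
  have e2 : ((fun l : B => v l) ∈ (Hs st B F).map (ph B x)) =
      ∀ β ∈ Alt G st, ∑ l ∈ B, β (x l) (v l) = 0 := by
    have e3 : ∀ β : G →+ G →+ F2, ps B x β (fun l : B => v l) = ∑ l ∈ B, β (x l) (v l) :=
      fun β => sum_coe_sort B fun l => β (x l) (v l)
    refine propext ⟨?_, fun h => hm _ fun μ hμ => ?_⟩
    · rintro ⟨H, hH, e⟩ β hβ
      rw [← e3, ← e]
      exact ps_ann x hβ hH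
    · obtain ⟨β, h1, rfl⟩ := hsur μ hμ
      rw [e3, h β h1]
  rw [e1, hA.fib, e2]
  rw [← hcard, Nat.card_fun, Nat.card_eq_finsetCard] at hc
  have hp : (0 : ℝ) < Nat.card ((Hs st B F).map (ph B x)) := Nat.cast_pos.2 Nat.card_pos
  have hG : (0 : ℝ) < Nat.card G := Nat.cast_pos.2 Nat.card_pos
  have hc' : (Nat.card ((Hs st B F).map (ph B x)) : ℝ) * Nat.card (Alt G st) =
      (Nat.card G : ℝ) ^ B.card := by exact_mod_cast hc
  rw [div_eq_div_iff hp.ne' (pow_pos hG _).ne', ← hc']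
  ring

end Pool.Agent.MP_1246c0_nt.H12
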